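import Pool.Agent.P.MP_7bb607_co.Range

namespace Pool.Agent.Results.MP_7bb607_co.ExactRange

open Pool.Agent.P.MP_7bb607_co

/-- The exact range of indices `i = m - 1` in which vertical projection from `ℝ^(d+1)` onto a
spanning configuration in `ℝ^d` never raises the Betti number of the skeletal `r`-rigidity
complex is `i ≤ 0`. -/
theorem result (d r m : ℕ) (hr : r ≤ d + 1) (hm : m < r) :
    (∀ (n : ℕ) (Δ : Finset (Finset (Fin n))) (p : Fin n → Fin (d + 1) → ℝ),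
      ∅ ∈ Δ → (∀ v, {v} ∈ Δ) → (∀ σ ∈ Δ, ∀ τ ⊆ σ, τ ∈ Δ) →
      (∀ σ ∈ Δ, σ.card ≤ r → AffineIndependent ℝ fun v : σ => p v) →
      (∀ σ ∈ Δ, σ.card ≤ r → AffineIndependent ℝ fun v : σ => (Fin.init (p v) : Fin d → ℝ)) →
      affineSpan ℝ (Set.range fun v => (Fin.init (p v) : Fin d → ℝ)) = ⊤ →
      betti Δ (fun v => (Fin.init (p v) : Fin d → ℝ)) r m ≤ betti Δ p r m) ↔ m ≤ 1 := by
  refine ⟨fun h => ?_, fun h1 n Δ p h0 hv _ _ _ hs => betti_le hm h1 Δ p h0 hv fun _ => hs⟩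
  by_contra h2
  obtain ⟨Δ, p, h1, h3, h4, h5, h6, h7, h8⟩ := betti_lt hr hm (by omega)
  have := h _ Δ p (h3 _ (h1 0) _ (Finset.empty_subset _)) h1 h3
    (fun σ _ _ => h4.comp_embedding (Function.Embedding.subtype _)) (fun σ _ hc => h5 σ hc) h6
  omega

end Pool.Agent.Results.MP_7bb607_co.ExactRange
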