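import Pool.Agent.P.MP_7bb607_co.Main

open Pool.Agent.P.MP_7bb607_co

theorem Pool.Agent.Results.MP_7bb607_co.OctahedronCounterexample.result :
    (∃ p : Fin 6 → Fin 5 → ℝ, AffineIndependent ℝ p ∧
      ∀ s : Finset (Fin 6), s.card ≤ 5 →
        AffineIndependent ℝ fun v : s => (Fin.init (p v) : Fin 4 → ℝ)) ∧
    ∀ p : Fin 6 → Fin 5 → ℝ, AffineIndependent ℝ p →
      (∀ s : Finset (Fin 6), s.card ≤ 5 →
        AffineIndependent ℝ fun v : s => (Fin.init (p v) : Fin 4 → ℝ)) →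
      betti (Finset.univ.filter fun σ : Finset (Fin 6) => ∀ v ∈ σ, v.rev ∉ σ) p 3 2 <
        betti (Finset.univ.filter fun σ : Finset (Fin 6) => ∀ v ∈ σ, v.rev ∉ σ)
          (fun v => (Fin.init (p v) : Fin 4 → ℝ)) 3 2 :=
  main
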